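import Pool.Agent.ZGO.StmtsA

/-! MP_c4a8aa_al, ZGO, row EXT (helper62): characters separate. -/

set_option autoImplicit false

namespace Pool.Agent.ZGO.H62

open Pool.Agent.ZGO

/-- characters of a group modulo a normal subgroup separate the elements outside of the
commutator subgroup times the normal subgroup -/
theorem char_sep {H : Type} [Group H] (N : Subgroup H) [N.Normal] (a : H)
    (ha : a ∉ commutator H ⊔ N) : ∃ h : H → QZ, (∀ x y, h (x * y) = h x + h y) ∧
      (∀ x ∈ N, h x = 0) ∧ h a ≠ 0 := by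
  have hne : Additive.ofMul (Abelianization.of (QuotientGroup.mk a : H ⧸ N)) ≠ 0 := by
    intro h0
    have h1 : Abelianization.of (QuotientGroup.mk a : H ⧸ N) = 1 := by
      exact Additive.ofMul.injective (h0.trans ofMul_one.symm)
    have h2 : (QuotientGroup.mk a : H ⧸ N) ∈ commutator (H ⧸ N) := by
      rw [← Abelianization.ker_of]
      exact h1
    have h3 : commutator (H ⧸ N) = (commutator H).map (QuotientGroup.mk' N) := by
      rw [commutator_def, commutator_def, Subgroup.map_commutator, ← MonoidHom.range_eq_map,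
        MonoidHom.range_eq_top.2 (QuotientGroup.mk'_surjective N)]
    rw [h3] at h2
    obtain ⟨c, hc, hca⟩ := h2
    apply ha
    have h4 : c⁻¹ * a ∈ N := QuotientGroup.eq.1 hca
    have h5 : a = c * (c⁻¹ * a) := by group
    rw [h5]
    exact Subgroup.mul_mem _ ((le_sup_left : commutator H ≤ commutator H ⊔ N) hc)
      ((le_sup_right : N ≤ commutator H ⊔ N) h4)
  obtain ⟨c, hc⟩ := CharacterModule.exists_character_apply_ne_zero_of_ne_zero hne
  refine ⟨fun x => c (Additive.ofMul (Abelianization.of (QuotientGroup.mk x : H ⧸ N))),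
    ?_, ?_, hc⟩
  · intro x y
    show c _ = c _ + c _
    rw [← map_add, ← ofMul_mul, ← map_mul]
    rfl
  · intro x hx
    show c _ = 0
    have : (QuotientGroup.mk x : H ⧸ N) = 1 := (QuotientGroup.eq_one_iff x).2 hx
    rw [this, map_one, ofMul_one, map_zero]

theorem ext : ExtStmt := by
  intro P _ d ψ N A B hL M a ha hna
  have hN := hL.nrm M
  have hNs : ((N M).subgroupOf (A M)).Normal := hN.subgroupOf (A M)
  have hna' : (⟨a, ha⟩ : A M) ∉ commutator (A M) ⊔ (N M).subgroupOf (A M) := by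
    intro h
    apply hna
    have h1 : ((commutator (A M) ⊔ (N M).subgroupOf (A M)).map (A M).subtype) ≤
        ⁅A M, A M⁆ ⊔ N M := by
      rw [Subgroup.map_sup]
      refine sup_le_sup ?_ ?_
      · rw [commutator_def, Subgroup.map_commutator, ← MonoidHom.range_eq_map,
          Subgroup.range_subtype]
      · rw [Subgroup.subgroupOf, Subgroup.map_comap_eq]
        exact inf_le_right
    exact h1 ⟨_, h, rfl⟩
  obtain ⟨h, hadd, hker, hne⟩ := char_sep ((N M).subgroupOf (A M)) ⟨a, ha⟩ hna'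
  have hex : ∀ g, ∃ x : A M, ∃ y ∈ B M, g = x * y := by
    intro g
    obtain ⟨x, hx, y, hy, e⟩ := hL.mul M g
    exact ⟨⟨x, hx⟩, y, hy, e⟩
  choose p q hq hpq using hex
  have hwd : ∀ (x : A M) (y : P), y ∈ B M → h (p (x * y)) = h x := by
    intro x y hy
    have e := hpq (x * y)
    have e1 : ((p (x * y) : P))⁻¹ * x = q (x * y) * y⁻¹ := by
      have e2 : (x : P) = p (x * y) * q (x * y) * y⁻¹ := by
        rw [← e]; group
      calc ((p (x * y) : P))⁻¹ * x = ((p (x * y) : P))⁻¹ * (p (x * y) * q (x * y) * y⁻¹) := by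
            rw [← e2]
        _ = q (x * y) * y⁻¹ := by group
    have hin : ((p (x * y))⁻¹ * x : A M) ∈ (N M).subgroupOf (A M) := by
      rw [Subgroup.mem_subgroupOf]
      refine hL.dis M _ (SetLike.coe_mem _) ?_
      show ((p (x * y) : P))⁻¹ * x ∈ B M
      rw [e1]
      exact Subgroup.mul_mem _ (hq _) (Subgroup.inv_mem _ hy)
    have e3 : x = p (x * y) * ((p (x * y))⁻¹ * x) := by group
    have e4 : h x = h (p (x * y)) + h ((p (x * y))⁻¹ * x) := by
      rw [← hadd, ← e3]
    rw [e4, hker _ hin, add_zero]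
  have hA : ∀ x : A M, h (p x) = h x := by
    intro x
    have := hwd x 1 (Subgroup.one_mem _)
    rwa [mul_one] at this
  refine ⟨fun g => h (p g), ⟨?_, ?_⟩, ?_⟩
  · intro x hx y hy
    show h (p (x * y)) = h (p x) + h (p y)
    have e1 := hA ⟨x, hx⟩
    have e2 := hA ⟨y, hy⟩
    have e3 := hA (⟨x, hx⟩ * ⟨y, hy⟩)
    rw [hadd] at e3
    have e1' : h (p x) = h ⟨x, hx⟩ := e1
    have e2' : h (p y) = h ⟨y, hy⟩ := e2
    have e3' : h (p (x * y)) = h ⟨x, hx⟩ + h ⟨y, hy⟩ := e3
    rw [e1', e2', e3']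
  · intro g b hb
    show h (p (g * b)) = h (p g)
    have e1 : g * b = (p g : P) * (q g * b) := by
      rw [← mul_assoc, ← hpq g]
    rw [e1]
    exact hwd (p g) _ (Subgroup.mul_mem _ (hq g) hb)
  · show h (p a) ≠ 0
    have e1 : h (p a) = h ⟨a, ha⟩ := hA ⟨a, ha⟩
    rw [e1]
    exact hne

end Pool.Agent.ZGO.H62
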